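import Pool.Agent.Lib.MP_32472a_al.Main

/-!
# Leonard pairs and the equitable presentation of `U_q(sl_2)`

`Q1Holds K q d` is the assertion of the question for the field `K`, the scalar `q` and Leonard
pairs on `K`-vector spaces of dimension `d + 1`.  It holds if and only if `d ≤ 1` or every monic
quadratic polynomial over `K` has a root in `K`.
-/

namespace Pool.Agent.Results.MP_32472a_al.EquitableLeonard

open Pool.Agent.Lib.MP_32472a_al

universe u

/-- For every field `K`, every nonzero `q` in `K` that is not a root of unity and every `d`, the
assertion of Q1 holds for all Leonard pairs with `β = q² + q⁻²` on spaces of dimension `d + 1` if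
and only if `d ≤ 1` or every monic quadratic polynomial over `K` has a root in `K`. -/
theorem result (K : Type u) [Field K] (q : K) (hq : q ≠ 0) (hq' : ∀ n : ℕ, 0 < n → q ^ n ≠ 1)
    (d : ℕ) :
    Q1Holds K q d ↔ (d ≤ 1 ∨ ∀ a b : K, ∃ t : K, t ^ 2 + a * t + b = 0) :=
  answer hq hq' d

end Pool.Agent.Results.MP_32472a_al.EquitableLeonard
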